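import Pool.Agent.helper49.EX.Res

/-!
# MP_bb5cc8_nt: Q1 up to few exceptional choices

`1 / 2 < α < 1`; a choice `a` gives one residue class `a p` modulo each prime `p` of `[N ^ α, 2 N ^ α)`
(and `a p = 0` for all other `p`); `π` is the number of these primes, so there are at least `N ^ (α π)`
choices. `S_a(N)` is the count of the question. For large `N`, uniformly in `0 ≤ ε ≤ α - 1/2`:

(1) all but at most `N ^ ((2 α - 1 - ε + δ) π)` choices `a` have `S_a(N) ≥ c N ^ (1 - ε) / log N`;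
(2) if `F p` is any set of at most `N ^ (1 - α + ε - 2 δ)` residues modulo `p` for each `p`, then for all
but at most `N ^ ((α - δ) π)` choices `x`, every choice `a` with `a p - x p ∈ F p` for all `p` has
`S_a(N) ≥ c N ^ (1 - ε) / log N`;
(3) for all but at most `N ^ ((α - 1/2 - ε + δ) M)` of the sets `Q` of `M` primes
of `[N ^ α, 2 N ^ α)`, every choice `a` puts at least `c M N ^ (1 - α - ε)` of the integers `1, ..., N`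
into the classes `a p`, `p ∈ Q` (at most `2 M N ^ (1 - α)` for every choice).

`All but at most k` is stated as: every finite set `T` of exceptions has at most `k` elements.
-/

set_option autoImplicit false

namespace Pool.Agent.Results.MP_bb5cc8_nt.Exceptions

theorem result (α : ℝ) (hα : 1 / 2 < α) (hα1 : α < 1) (δ : ℝ) (hδ : 0 < δ) :
    ∃ c : ℝ, 0 < c ∧ ∃ N₀ : ℕ, ∀ N : ℕ, N₀ ≤ N → ∀ ε : ℝ, 0 ≤ ε → ε ≤ α - 1 / 2 →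
      (∀ T : Finset ((p : ℕ) → ZMod p),
        (∀ a ∈ T,
          (∀ p : ℕ, ¬ (p.Prime ∧ (N : ℝ) ^ α ≤ (p : ℝ) ∧ (p : ℝ) < 2 * (N : ℝ) ^ α) → a p = 0) ∧
          ({n : ℕ | 1 ≤ n ∧ n ≤ N ∧ ∃ p : ℕ, p.Prime ∧ (N : ℝ) ^ α ≤ p ∧ (p : ℝ) < 2 * (N : ℝ) ^ α ∧
            (n : ZMod p) = a p}.ncard : ℝ) < c * (N : ℝ) ^ (1 - ε) / Real.log N) →
        (T.card : ℝ) ≤ (N : ℝ) ^ ((2 * α - 1 - ε + δ) *
          {p : ℕ | p.Prime ∧ (N : ℝ) ^ α ≤ (p : ℝ) ∧ (p : ℝ) < 2 * (N : ℝ) ^ α}.ncard)) ∧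
      (∀ F : (p : ℕ) → Finset (ZMod p),
        (∀ p : ℕ, p.Prime ∧ (N : ℝ) ^ α ≤ (p : ℝ) ∧ (p : ℝ) < 2 * (N : ℝ) ^ α →
          ((F p).card : ℝ) ≤ (N : ℝ) ^ (1 - α + ε - 2 * δ)) →
        ∀ T : Finset ((p : ℕ) → ZMod p),
        (∀ x ∈ T,
          (∀ p : ℕ, ¬ (p.Prime ∧ (N : ℝ) ^ α ≤ (p : ℝ) ∧ (p : ℝ) < 2 * (N : ℝ) ^ α) → x p = 0) ∧
          ∃ a : (p : ℕ) → ZMod p,
            (∀ p : ℕ, p.Prime ∧ (N : ℝ) ^ α ≤ (p : ℝ) ∧ (p : ℝ) < 2 * (N : ℝ) ^ α →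
              a p - x p ∈ F p) ∧
            ({n : ℕ | 1 ≤ n ∧ n ≤ N ∧ ∃ p : ℕ, p.Prime ∧ (N : ℝ) ^ α ≤ p ∧ (p : ℝ) < 2 * (N : ℝ) ^ α ∧
              (n : ZMod p) = a p}.ncard : ℝ) < c * (N : ℝ) ^ (1 - ε) / Real.log N) →
        (T.card : ℝ) ≤ (N : ℝ) ^ ((α - δ) *
          {p : ℕ | p.Prime ∧ (N : ℝ) ^ α ≤ (p : ℝ) ∧ (p : ℝ) < 2 * (N : ℝ) ^ α}.ncard)) ∧
      (∀ (M : ℕ) (T : Finset (Finset ℕ)),
        (∀ Q ∈ T, Q.card = M ∧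
          (∀ p ∈ Q, p.Prime ∧ (N : ℝ) ^ α ≤ (p : ℝ) ∧ (p : ℝ) < 2 * (N : ℝ) ^ α) ∧
          ∃ a : (p : ℕ) → ZMod p,
            ({n : ℕ | 1 ≤ n ∧ n ≤ N ∧ ∃ p ∈ Q, (n : ZMod p) = a p}.ncard : ℝ) <
              c * M * (N : ℝ) ^ (1 - α - ε)) →
        (T.card : ℝ) ≤ (N : ℝ) ^ ((α - 1 / 2 - ε + δ) * M)) := by
  obtain ⟨c, hc, N₀, h⟩ := Pool.Agent.EX.EX_res α hα hα1 δ hδ
  exact ⟨c, hc, N₀, fun N hN ε he he2 => ⟨(h N hN ε he).2.2.1 (by linarith),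
    (h N hN ε he).2.2.2 (by linarith), (h N hN ε he).1 he2⟩⟩

end Pool.Agent.Results.MP_bb5cc8_nt.Exceptions
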