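import Pool.Agent.helper74.FC.AllQ

/-!
The size of the union of one residue class modulo each prime `p` of a set `Q` of primes in
`[N ^ α, 2 N ^ α)`, `1/2 < α < 1`, uniform in the choice of the classes, proved by counting
configurations of classes (modules `Pool.Agent.helper74.FC`).
-/

namespace Pool.Agent.Results.MP_bb5cc8_nt.FourCycles

theorem result (α : ℝ) (hα : 1 / 2 < α) (hα1 : α < 1) (ε : ℝ) (hε : 0 < ε) :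
    ∃ N₀ : ℕ, ∀ N : ℕ, N₀ ≤ N → ∀ a : (p : ℕ) → ZMod p,
      (∀ Q : Finset ℕ,
        (∀ p ∈ Q, p.Prime ∧ (N : ℝ) ^ α ≤ (p : ℝ) ∧ (p : ℝ) < 2 * (N : ℝ) ^ α) →
        min ((Q.card * (N : ℝ) ^ (2 - 2 * α)) ^ (2 - Real.sqrt 2))
            ((Q.card : ℝ) ^ (2 / 3 : ℝ) * (N : ℝ) ^ (1 - α)) ≤
          (N : ℝ) ^ ε * ({n : ℕ | 1 ≤ n ∧ n ≤ N ∧ ∃ p ∈ Q, (n : ZMod p) = a p}.ncard : ℝ)) ∧
      (N : ℝ) ^ (min ((2 - Real.sqrt 2) * (2 - α)) (1 - α / 3) - ε) ≤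
        ({n : ℕ | 1 ≤ n ∧ n ≤ N ∧ ∃ p : ℕ, p.Prime ∧ (N : ℝ) ^ α ≤ p ∧ (p : ℝ) < 2 * (N : ℝ) ^ α ∧
          (n : ZMod p) = a p}.ncard : ℝ) := by
  obtain ⟨N₀, h0⟩ := Pool.Agent.FC.allQ α hα hα1 ε hε
  obtain ⟨N₁, h1⟩ := Pool.Agent.FC.fourCycles α hα hα1 ε hε
  exact ⟨max N₀ N₁, fun N hN a =>
    ⟨fun Q hQ => h0 N ((le_max_left _ _).trans hN) a Q hQ, h1 N ((le_max_right _ _).trans hN) a⟩⟩

end Pool.Agent.Results.MP_bb5cc8_nt.FourCycles
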