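import Pool.Agent.helper96.WB.AllRich
import Pool.Agent.helper79.Parked.SlicesBound

/-!
Integers in many of the residue classes `a p` mod `p`, for the primes `p` of an arbitrary set `Q` of
primes in `[N ^ α, 2 N ^ α)`, `1/2 < α < 1`, and the size of the union of these classes, uniform in
the choice of the classes. The first two parts are proved by the polynomial method (modules
`Pool.Agent.helper96.WB` and the rows they import); the exponent `1 - 3 α / 7` in the last one comes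
from the sums-differences theorem of Katz and Tao.
-/

namespace Pool.Agent.Results.MP_bb5cc8_nt.RichPoints

theorem result (α : ℝ) (hα : 1 / 2 < α) (hα1 : α < 1) (ε : ℝ) (hε : 0 < ε) :
    ∃ N₀ : ℕ, ∀ N : ℕ, N₀ ≤ N → ∀ a : (p : ℕ) → ZMod p,
      (∀ Q : Finset ℕ,
        (∀ p ∈ Q, p.Prime ∧ (N : ℝ) ^ α ≤ (p : ℝ) ∧ (p : ℝ) < 2 * (N : ℝ) ^ α) →
        (∀ r : ℕ, 1 ≤ r →
          ({n : ℕ | 1 ≤ n ∧ n ≤ N ∧ r ≤ {p : ℕ | p ∈ Q ∧ (n : ZMod p) = a p}.ncard}.ncard : ℝ) ≤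
            (N : ℝ) ^ ε * (Q.card * ((N : ℝ) ^ (1 / 2 : ℝ) / (r : ℝ) ^ 2 + 1 / (r : ℝ)))) ∧
        (Q.card : ℝ) * (N : ℝ) ^ (3 / 2 - 2 * α - ε) ≤
          ({n : ℕ | 1 ≤ n ∧ n ≤ N ∧ ∃ p ∈ Q, (n : ZMod p) = a p}.ncard : ℝ)) ∧
      (N : ℝ) ^ (max (3 / 2 - α) (1 - 3 * α / 7) - ε) ≤
        ({n : ℕ | 1 ≤ n ∧ n ≤ N ∧ ∃ p : ℕ, p.Prime ∧ (N : ℝ) ^ α ≤ p ∧ (p : ℝ) < 2 * (N : ℝ) ^ α ∧
          (n : ZMod p) = a p}.ncard : ℝ) := by
  obtain ⟨N₀, h0⟩ := Pool.Agent.WB.RICH_all α ε hα hα1 hε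
  obtain ⟨N₁, h1⟩ := Pool.Agent.WB.RICH_WBA Pool.Agent.WB.RICH_all α hα hα1 ε hε
  obtain ⟨N₃, h3⟩ := Pool.Agent.helper79.Parked.SlicesBound.result α (by linarith) hα1
  have hev : ∀ᶠ N : ℕ in Filter.atTop, 896 * Real.log (N : ℝ) ≤ (N : ℝ) ^ ε := by
    have h := (isLittleO_log_rpow_atTop hε).bound (show (0 : ℝ) < 1 / 896 by norm_num)
    have h' := tendsto_natCast_atTop_atTop.eventually h
    filter_upwards [h', Filter.eventually_ge_atTop 1] with N hN hN1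
    have hN1' : (1 : ℝ) ≤ N := by exact_mod_cast hN1
    rw [Real.norm_of_nonneg (Real.log_nonneg hN1'),
      Real.norm_of_nonneg (Real.rpow_nonneg (by linarith) _)] at hN
    linarith
  obtain ⟨N₄, h4⟩ := Filter.eventually_atTop.mp hev
  refine ⟨max N₀ (max N₁ (max N₃ (max N₄ 2))), fun N hN a => ?_⟩
  have hN0' : N₀ ≤ N := by omega
  have hN1 : N₁ ≤ N := by omega
  have hN3 : N₃ ≤ N := by omega
  have hN4 : N₄ ≤ N := by omega
  have hNt : 2 ≤ N := by omega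
  have hNR : (2 : ℝ) ≤ N := by exact_mod_cast hNt
  have hN0 : (0 : ℝ) < N := by linarith
  have hlog : 0 < Real.log N := Real.log_pos (by linarith)
  refine ⟨fun Q hQ => h0 N hN0' a Q hQ, ?_⟩
  rcases max_choice (3 / 2 - α) (1 - 3 * α / 7) with h | h
  · rw [h]
    exact h1 N hN1 a
  · rw [h]
    refine le_trans ?_ (h3 N hN3 a)
    rw [le_div_iff₀ (by positivity)]
    calc (N : ℝ) ^ (1 - 3 * α / 7 - ε) * (896 * Real.log N)
        ≤ (N : ℝ) ^ (1 - 3 * α / 7 - ε) * (N : ℝ) ^ ε := by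
          have := h4 N hN4
          gcongr
      _ = (N : ℝ) ^ (1 - 3 * α / 7) := by
          rw [← Real.rpow_add hN0]
          congr 1
          ring

end Pool.Agent.Results.MP_bb5cc8_nt.RichPoints
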