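import Pool.Agent.helper86.BK.All2

/-!
# The question, its equivalent forms, and its place between two Kakeya conjectures

`Q1` is the question: one residue class `a p` for every prime `p` in `[N ^ α, 2 N ^ α)` covers
`N ^ (1 - o(1))` of the integers in `{1, …, N}`, for every `α` in `(1 / 2, 1)`.

`Q1` is equivalent to four other statements, among them a statement about finite sets of integers
without primes and without `α` (`FW 0`, `WK 0`) and its own maximal form for arbitrary moduli (`SumF`);
the arithmetic Kakeya conjecture of Katz and Tao (`SDC 1`) implies `Q1`, and `Q1` implies the Kakeya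
conjecture for the lower Minkowski dimension in `ℝ ^ n`, for every `n`. The same theorem with a loss
`c`: `SDC (1 / (1 - c))` implies each of five equivalent statements with loss `c`, and each of them gives
the lower bound `N ^ (1 - c * α - o(1))` for every `α` and the dimension `n - c * (n - 1)` for Kakeya
sets in `ℝ ^ n`.
-/

set_option autoImplicit false

open Pool.Agent.BK

namespace Pool.Agent.Results.MP_bb5cc8_nt.WeakKakeya

theorem result :
    (SDC 1 → Q1) ∧ List.TFAE [Q1, PNear 0, SumF, FW 0, WK 0] ∧
    (Q1 → ∀ n : ℕ, 2 ≤ n → ∀ K : Set (EuclideanSpace ℝ (Fin n)), IsKak K → MinkGE K n) ∧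
    ∀ c : ℝ, 0 ≤ c → c < 1 →
      (SDC (1 / (1 - c)) → WK c) ∧ List.TFAE [PNear c, ANear c, Max c, FW c, WK c] ∧
      (WK c → (∀ α : ℝ, 0 < α → α < 1 → PAt α (1 - c * α)) ∧
        ∀ n : ℕ, 2 ≤ n → ∀ K : Set (EuclideanSpace ℝ (Fin n)), IsKak K →
          MinkGE K (n - c * (n - 1))) := by
  refine ⟨all_ak, all_q1, all_kak1, fun c h0 h1 => ⟨fun h => ?_, all_tfae c h0 h1, fun h => ⟨?_, ?_⟩⟩⟩
  · have hb : (1 : ℝ) ≤ 1 / (1 - c) := by
      rw [le_div_iff₀ (by linarith)]
      linarith
    have hw := SDW _ hb h
    rwa [one_div_one_div, sub_sub_cancel] at hw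
  · exact AT c h0 h1 (all_WM c h0 h1 h)
  · exact all_kakn c h0 h1.le (((all_tfae c h0 h1).out 4 0).1 h)

end Pool.Agent.Results.MP_bb5cc8_nt.WeakKakeya
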